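import Pool.Agent.Helper17.SL.GoalsB

namespace Pool.Agent.Helper17.SL.PkSB

open Pool.Agent.Helper51.SigLeo Pool.Agent.Helper51.SixExp NumberField Module

universe u w x

theorem lam_eq {E : Type u} [Field E] [NumberField E] {k : Type w} [Field k] [CharZero k]
    (lam : E →+* k) {ι : Type*} [Fintype ι] [DecidableEq ι] (β : Basis ι ℚ E) (z : E) :
    lam z = ∑ t, ((Algebra.trace ℚ E (z * β t) : ℚ) : k) * lam (β.traceDual t) := by
  have h := (β.traceDual).sum_repr z
  conv_lhs => rw [← h]
  rw [map_sum]
  refine Finset.sum_congr rfl fun t _ ↦ ?_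
  rw [Basis.traceDual_repr_apply, Algebra.traceForm_apply, Algebra.smul_def, map_mul]
  congr 1
  exact map_ratCast lam _

theorem thm : S_SB.{u, w, x} := by
  intro E _ _ k _ _ lam d l R _ b x a c h
  classical
  let β : Basis (Fin (finrank ℚ E)) ℚ E := Module.finBasis ℚ E
  have key : ∑ i, ∑ j, lam (a i) * lam (c j) * ∑ r, lam (b i j r) * x i j r =
      ∑ t, lam (β.traceDual t) * Bform b x (β t • a) c := by
    have e1 : ∀ i j r, lam (a i) * lam (c j) * (lam (b i j r) * x i j r) =
        ∑ t, lam (β.traceDual t) *
          ((Algebra.trace ℚ E ((β t • a) i * c j * b i j r)) • x i j r) := by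
      intro i j r
      have h2 := lam_eq lam β (a i * c j * b i j r)
      rw [map_mul, map_mul] at h2
      calc lam (a i) * lam (c j) * (lam (b i j r) * x i j r)
          = (lam (a i) * lam (c j) * lam (b i j r)) * x i j r := by ring
        _ = _ := by
          rw [h2, Finset.sum_mul]
          refine Finset.sum_congr rfl fun t _ ↦ ?_
          rw [Rat.smul_def]
          have : a i * c j * b i j r * β t = (β t • a) i * c j * b i j r := by
            rw [Pi.smul_apply, smul_eq_mul]; ring
          rw [this]; ring
    have e2 : ∀ t, lam (β.traceDual t) * Bform b x (β t • a) c =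
        ∑ i, ∑ j, ∑ r, lam (β.traceDual t) *
          ((Algebra.trace ℚ E ((β t • a) i * c j * b i j r)) • x i j r) := by
      intro t
      unfold Bform
      rw [LinearMap.mk₂_apply]
      simp only [Finset.mul_sum]
    simp only [e2]
    symm
    rw [Finset.sum_comm]
    refine Finset.sum_congr rfl fun i _ ↦ ?_
    rw [Finset.sum_comm]
    refine Finset.sum_congr rfl fun j _ ↦ ?_
    rw [Finset.sum_comm, Finset.mul_sum]
    refine Finset.sum_congr rfl fun r _ ↦ ?_
    exact (e1 i j r).symm
  rw [key]
  refine Finset.sum_eq_zero fun t _ ↦ ?_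
  rw [h (β t), mul_zero]

end Pool.Agent.Helper17.SL.PkSB
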